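import Pool.Agent.U125.HW.Proof

/-!
# MP_b213bc_pr, Q1: the negated form holds

For every drift `β` and every `x > β` there is a characteristic measure `ν` with `ν((0,1)) > 0` for
which no constants `c`, `σ ≠ 0` give convergence in distribution of
`(-log K_{0,t}(0, [tx, tx+1]) - c t) / (σ t^(1/3))` to any law on `ℝ`, in particular not to the GUE
Tracy-Widom law. More precisely this holds for every `ν` with finite right speed
`β + 2 ∫ q⁻¹ ν(dq)` and every `x` larger than this speed.

Proof. The `f_Δ`-martingale gives `E max_i X_i(t) ≤ (β + 2 ∫ q⁻¹ dν) t` for the `n`-point motion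
started at `0`, for all `n`, and `X_1(t) - β t` has variance `t`. By Markov's inequality
`P(X_i(t) < t x for all i) = E K_{0,t}(0, (-∞, tx))^n` is bounded from below uniformly in `n` and
in large `t`; letting `n → ∞` one gets `P(K_{0,t}(0, [tx, ∞)) = 0) ≥ δ > 0` for all large `t`.

The definitions are in `Pool/Agent/U125/HW/Defs.lean`.
-/

set_option autoImplicit false

open MeasureTheory ProbabilityTheory Filter Topology
open scoped ENNReal NNReal

namespace Pool.Agent.Results.MP_b213bc_pr.FiniteSpeed

open Pool.Agent.U125.HW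

/-- no convergence in law if the kernel vanishes with probability bounded from below -/
lemma not_conv {Ω : Type*} [MeasurableSpace Ω] (P : Measure Ω) [IsProbabilityMeasure P]
    (K : ℝ → ℝ → Kernel (Ω × ℝ) ℝ) {β B x : ℝ} {ν : Measure ℝ} (hK : IsHowittWarren P K β ν)
    (hB : ∀ m, betaPlus β ν m ≤ B) (hx : B < x) {c σ : ℝ} (hσ : σ ≠ 0) (χ : Measure ℝ)
    [IsProbabilityMeasure χ] : ¬ ConvergesInLaw P (rescaled K x c σ) χ := by
  intro hconv
  have hβB : β ≤ B := by
    have := hB 1
    simpa [betaPlus] using this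
  have hβx : β < x := lt_of_le_of_lt hβB hx
  have hxβ : 0 < x - β := by linarith
  -- the lower bound of the probability that the kernel vanishes
  set δ : ℝ := (x - B) / (2 * (x - β)) with hδ
  have hδ0 : 0 < δ := by
    rw [hδ]
    apply div_pos <;> linarith
  have hev : ∀ᶠ t : ℝ in atTop, 0 < t ∧
      δ ≤ P.real {ω | K 0 t (ω, 0) (Set.Icc (t * x) (t * x + 1)) = 0} := by
    have h1 : Tendsto (fun t : ℝ => 1 / ((x - β) * Real.sqrt t)) atTop (𝓝 0) := by
      apply Tendsto.div_atTop tendsto_const_nhds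
      exact Real.tendsto_sqrt_atTop.const_mul_atTop hxβ
    filter_upwards [h1.eventually (gt_mem_nhds hδ0), eventually_gt_atTop 0] with t ht1 ht
    refine ⟨ht, ?_⟩
    have h2 := kernel_zero hK hB hβx ht
    have h3 : δ ≤ 1 - ((B - β) * t + Real.sqrt t) / ((x - β) * t) := by
      have hs : 0 < Real.sqrt t := Real.sqrt_pos.2 ht
      have h4 : ((B - β) * t + Real.sqrt t) / ((x - β) * t) =
          (B - β) / (x - β) + 1 / ((x - β) * Real.sqrt t) := by
        have h5 : Real.sqrt t * Real.sqrt t = t := Real.mul_self_sqrt ht.le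
        have h7 : Real.sqrt t / t = 1 / Real.sqrt t := by
          rw [div_eq_div_iff ht.ne' hs.ne', one_mul, h5]
        have h8 : ((B - β) * t + Real.sqrt t) / ((x - β) * t) =
            (B - β) / (x - β) * (t / t) + 1 / (x - β) * (Real.sqrt t / t) := by
          field_simp
        rw [h8, h7, div_self ht.ne', mul_one, div_mul_div_comm, one_mul]
      rw [h4]
      have h6 : 2 * δ = 1 - (B - β) / (x - β) := by
        rw [hδ]
        field_simp
        ring
      linarith
    rw [Measure.real]
    exact (ENNReal.ofReal_le_iff_le_toReal (measure_ne_top _ _)).1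
      ((ENNReal.ofReal_le_ofReal h3).trans h2)
  -- continuity points of the distribution function are dense
  have hcount : {s : ℝ | ¬ ContinuousAt (cdf χ) s}.Countable :=
    (monotone_cdf χ).countable_not_continuousAt
  have hdense : Dense {s : ℝ | ¬ ContinuousAt (cdf χ) s}ᶜ := hcount.dense_compl ℝ
  rcases lt_or_gt_of_ne hσ with hneg | hpos
  · -- `σ < 0`: the random variable is `-∞` with probability at least `δ`
    have h1 := tendsto_cdf_atBot χ
    obtain ⟨s0, hs0⟩ := (h1.eventually (gt_mem_nhds hδ0)).exists_forall_of_atBot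
    obtain ⟨s, hs1, hs2⟩ := hdense.exists_lt s0
    have hs3 : ContinuousAt (cdf χ) s := by simpa using hs1
    have h2 := hconv s hs3
    have h3 : δ ≤ cdf χ s := by
      refine ge_of_tendsto h2 ?_
      filter_upwards [hev] with t ht
      refine ht.2.trans (measureReal_mono ?_)
      intro ω hω
      simp only [Set.mem_setOf_eq] at hω ⊢
      rw [rescaled_bot hneg ht.1 hω]
      exact bot_le
    exact absurd (hs0 s hs2.le) (not_lt.2 h3)
  · -- `σ > 0`: the random variable is `∞` with probability at least `δ`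
    have h1 := tendsto_cdf_atTop χ
    obtain ⟨s0, hs0⟩ := (h1.eventually (lt_mem_nhds (by linarith : 1 - δ < 1))).exists_forall_of_atTop
    obtain ⟨s, hs1, hs2⟩ := hdense.exists_gt s0
    have hs3 : ContinuousAt (cdf χ) s := by simpa using hs1
    have h2 := hconv s hs3
    have h3 : cdf χ s ≤ 1 - δ := by
      refine le_of_tendsto h2 ?_
      filter_upwards [hev] with t ht
      have hsub : {ω | rescaled K x c σ t ω ≤ (s : EReal)} ⊆
          {ω | K 0 t (ω, 0) (Set.Icc (t * x) (t * x + 1)) = 0}ᶜ := by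
        intro ω hω h0
        simp only [Set.mem_setOf_eq] at hω h0
        rw [rescaled_top hpos ht.1 h0, top_le_iff] at hω
        exact EReal.coe_ne_top _ hω
      have hms : MeasurableSet {ω | K 0 t (ω, 0) (Set.Icc (t * x) (t * x + 1)) = 0} := by
        have : Measurable fun ω => K 0 t (ω, 0) (Set.Icc (t * x) (t * x + 1)) :=
          (Kernel.measurable_coe _ measurableSet_Icc).comp (measurable_id.prodMk measurable_const)
        exact this (measurableSet_singleton 0)
      have h5 := measureReal_mono (μ := P) hsub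
      rw [probReal_compl_eq_one_sub hms] at h5
      linarith [ht.2]
    exact absurd (hs0 s hs2.le) (not_lt.2 h3)

/-- (1) For every drift `β`, every finite measure `ν` on `[0,1]` with `∫ q⁻¹ ν(dq) < ∞`, every
`x > β + 2 ∫ q⁻¹ ν(dq)`, every Howitt-Warren flow `K` with drift `β` and characteristic measure
`ν`, all constants `c` and `σ ≠ 0` and every law `χ` on `ℝ` (in particular the GUE Tracy-Widom law),
`(-log K_{0,t}(0, [tx, tx+1]) - c t) / (σ t^(1/3))` does not converge in distribution to `χ`.
(2) For every `β` and every `x > β` (so `x ≠ β`) there is a `ν` with `ν((0,1)) > 0` as in (1). -/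
theorem result :
    (∀ (β x : ℝ) (ν : Measure ℝ) [IsFiniteMeasure ν], ν (Set.Icc 0 1)ᶜ = 0 →
      ∫⁻ q, (ENNReal.ofReal q)⁻¹ ∂ν < ∞ → β + 2 * ∫ q, q⁻¹ ∂ν < x →
      ∀ (Ω : Type) [MeasurableSpace Ω] (P : Measure Ω) [IsProbabilityMeasure P]
        (K : ℝ → ℝ → Kernel (Ω × ℝ) ℝ), IsHowittWarren P K β ν →
        ∀ c σ : ℝ, σ ≠ 0 → ∀ (χ : Measure ℝ) [IsProbabilityMeasure χ],
          ¬ ConvergesInLaw P (rescaled K x c σ) χ) ∧
    ∀ β x : ℝ, β < x → ∃ ν : Measure ℝ, IsFiniteMeasure ν ∧ ν (Set.Icc 0 1)ᶜ = 0 ∧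
      0 < ν (Set.Ioo 0 1) ∧ ∫⁻ q, (ENNReal.ofReal q)⁻¹ ∂ν < ∞ ∧ β + 2 * ∫ q, q⁻¹ ∂ν < x := by
  refine ⟨?_, ?_⟩
  · intro β x ν _ hν hq hx Ω _ P _ K hK c σ hσ χ _
    exact not_conv P K hK (fun m => betaPlus_le hν hq m) hx hσ χ
  · intro β x hx
    set a : ℝ := (x - β) / 8 with ha
    have ha0 : 0 < a := by rw [ha]; linarith
    refine ⟨ENNReal.ofReal a • Measure.dirac (1 / 2 : ℝ), ?_, ?_, ?_, ?_, ?_⟩
    · constructor
      simp
    · rw [Measure.smul_apply, Measure.dirac_apply' _ measurableSet_Icc.compl]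
      norm_num
    · rw [Measure.smul_apply, Measure.dirac_apply' _ measurableSet_Ioo]
      norm_num
      exact ha0
    · rw [lintegral_smul_measure, lintegral_dirac]
      apply ENNReal.mul_lt_top ENNReal.ofReal_lt_top
      simp
    · rw [integral_smul_measure, integral_dirac, ENNReal.toReal_ofReal ha0.le, smul_eq_mul]
      norm_num
      linarith

end Pool.Agent.Results.MP_b213bc_pr.FiniteSpeed
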